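import Pool.Agent.W844.VG.Harm
import Pool.Agent.W844.VG.Flow
import Pool.Agent.W844.VG.Cut
import Pool.Agent.W844.VG.Ann
import Pool.Agent.W844.VG.Patt
import Pool.Agent.W844.VG.Cheb
import Pool.Agent.W932.VG.Near
import Pool.Agent.W932.VG.Join
import Pool.Agent.W932.VG.Loc
import Pool.Agent.W932.VG.Pei
import Pool.Agent.W932.VG.Min
import Pool.Agent.W932.VG.Wen
import Pool.Agent.W196.VG.LLN

/-!
# MP_b4265e_pr: vanishing gradients of decaying harmonic functions on the percolation cluster

Bernoulli bond percolation on `ℤ^d`, `d ≥ 3`, with a parameter `p` close to `1`. Almost surely the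
property asked for in Q1 fails on the infinite cluster `C`. There is a positive function on `C` which
is harmonic except at one site and tends to `0` at infinity. And every function on `C` that is
harmonic outside a finite set has vanishing gradient on a set of edges of positive density. These
edges are not dead ends, they lie on cycles: they are the central edges `xy` of a finite pattern which
is attached to the rest of the cluster by the `2 (d - 1)` neighbours `b` of `x` with `b - x`
orthogonal to `y - x`; `x` is joined to each `b` by an edge, `y` by a path of length two, so the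
potentials at `x` and `y` agree (a balanced bridge).
-/

set_option autoImplicit false

open MeasureTheory ProbabilityTheory Filter
open scoped Classical

namespace Pool.Agent.Results.MP_b4265e_pr.ZeroGradients

open Pool.Agent.W844.VG

/-- The lattice `ℤ^d`: two sites are joined iff their distance is `1`. -/
def lattice (d : ℕ) : SimpleGraph (Fin d → ℤ) where
  Adj x y := ∑ i, |x i - y i| = 1
  symm := ⟨fun x y h => by simpa only [abs_sub_comm] using h⟩
  loopless := ⟨fun x h => by simp at h⟩

/-- A percolation configuration: `ω s(x, y) = true` means that the edge `xy` is open. -/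
abbrev Config (d : ℕ) : Type := Sym2 (Fin d → ℤ) → Bool

/-- The law of one edge: open with probability `p`. -/
noncomputable def coin (p : ℝ) : Measure Bool :=
  ENNReal.ofReal p • Measure.dirac true + ENNReal.ofReal (1 - p) • Measure.dirac false

/-- Bernoulli bond percolation: all edges are open with probability `p`, independently. -/
noncomputable def Perc (d : ℕ) (p : ℝ) : Measure (Config d) :=
  Measure.infinitePi fun _ : Sym2 (Fin d → ℤ) => coin p

/-- The graph of the open edges. -/
def openGraph {d : ℕ} (ω : Config d) : SimpleGraph (Fin d → ℤ) where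
  Adj x y := (lattice d).Adj x y ∧ ω s(x, y) = true
  symm := ⟨fun x y h => ⟨h.1.symm, by rw [Sym2.eq_swap]; exact h.2⟩⟩
  loopless := ⟨fun x h => (lattice d).loopless.irrefl x h.1⟩

/-- The open cluster of `x`. -/
def cluster {d : ℕ} (ω : Config d) (x : Fin d → ℤ) : Set (Fin d → ℤ) :=
  {y | (openGraph ω).Reachable x y}

/-- The critical probability: supremum of the `p ∈ [0, 1]` for which the origin is almost surely
not in an infinite open cluster. -/
noncomputable def criticalProb (d : ℕ) : ℝ :=
  sSup {p : ℝ | 0 ≤ p ∧ p ≤ 1 ∧ Perc d p {ω | (cluster ω 0).Infinite} = 0}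

/-- `C` is an infinite open cluster. -/
def InfiniteCluster {d : ℕ} (ω : Config d) (C : Set (Fin d → ℤ)) : Prop :=
  C.Infinite ∧ ∃ x, C = cluster ω x

/-- `u` is harmonic at `x`: the sum of `u y - u x` over the open neighbours `y` of `x` is `0`. -/
def HarmonicAt {d : ℕ} (ω : Config d) (u : (Fin d → ℤ) → ℝ) (x : Fin d → ℤ) : Prop :=
  ∑ᶠ y ∈ {y | (openGraph ω).Adj x y}, (u y - u x) = 0

/-- `u` tends to `0` at infinity on `C`. -/
def TendsToZero {d : ℕ} (C : Set (Fin d → ℤ)) (u : (Fin d → ℤ) → ℝ) : Prop :=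
  ∀ ε : ℝ, 0 < ε → {x | x ∈ C ∧ ε ≤ |u x|}.Finite

/-- The edges of `C` on which the gradient of `u` vanishes. -/
def zeroEdges {d : ℕ} (ω : Config d) (C : Set (Fin d → ℤ)) (u : (Fin d → ℤ) → ℝ) :
    Set (Sym2 (Fin d → ℤ)) :=
  {e | ∃ x y, e = s(x, y) ∧ x ∈ C ∧ y ∈ C ∧ (openGraph ω).Adj x y ∧ u y - u x = 0}

/-- The open edges which lie on a cycle of open edges (the two ends stay connected when the edge is
removed). -/
def cycleEdges {d : ℕ} (ω : Config d) : Set (Sym2 (Fin d → ℤ)) :=
  {e | ∃ x y, e = s(x, y) ∧ (openGraph ω).Adj x y ∧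
    ((openGraph ω).deleteEdges {s(x, y)}).Reachable x y}

/-- The ball of radius `N` around the origin (maximum norm). -/
def ball (d N : ℕ) : Set (Fin d → ℤ) := {x | ∀ i, |x i| ≤ N}

/-- A set of edges has positive density: the lower limit of the number of its edges inside the ball
of radius `N`, divided by the number of lattice points of the ball, is positive. -/
def PositiveDensity {d : ℕ} (A : Set (Sym2 (Fin d → ℤ))) : Prop :=
  ∃ c : ℝ, 0 < c ∧ ∀ᶠ N : ℕ in atTop,
    c * ((ball d N).ncard : ℝ) ≤ ({e ∈ A | ∀ x ∈ e, x ∈ ball d N}.ncard : ℝ)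

/-- The property in question: every function on `C` that is harmonic outside a finite set, tends to
`0` at infinity and has vanishing gradient on a set of edges of positive density is zero at all but
finitely many sites. -/
def Continuation {d : ℕ} (ω : Config d) (C : Set (Fin d → ℤ)) : Prop :=
  ∀ (u : (Fin d → ℤ) → ℝ) (F : Set (Fin d → ℤ)), F.Finite →
    (∀ x ∈ C, x ∉ F → HarmonicAt ω u x) → TendsToZero C u →
    PositiveDensity (zeroEdges ω C u) → {x | x ∈ C ∧ u x ≠ 0}.Finite

variable {d : ℕ}

/-- the edges in terms of base points and directions -/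
def XX (d : ℕ) : E d → Config d → Bool := fun e ω => ω s(e.1, e.1 + stp e.2)

lemma stp_pair {x y : V d} {i j : Fin d} (h : s(x, x + stp i) = s(y, y + stp j)) :
    x = y ∧ i = j := by
  rw [Sym2.eq_iff] at h
  rcases h with ⟨rfl, h⟩ | ⟨h1, h2⟩
  · refine ⟨rfl, ?_⟩
    have := congrFun (add_left_cancel h) i
    rw [stp_same, stp_apply] at this
    by_contra hne
    rw [if_neg hne] at this
    exact one_ne_zero this
  · exfalso
    have h3 : (stp i : V d) + stp j = 0 := by
      have : y + (stp j + stp i) = y := by rw [← add_assoc, ← h1]; exact h2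
      have := left_eq_add.mp this.symm
      rw [add_comm]; exact this
    have h4 := congrFun h3 i
    simp only [Pi.add_apply, Pi.zero_apply, stp_same, stp_apply] at h4
    split_ifs at h4 <;> omega

lemma edge_inj : Function.Injective (fun e : E d => s(e.1, e.1 + stp e.2)) := by
  rintro ⟨x, i⟩ ⟨y, j⟩ h
  obtain ⟨rfl, rfl⟩ := stp_pair h
  rfl

lemma lattice_adj {x y : V d} :
    (lattice d).Adj x y ↔ ∃ i, y = x + stp i ∨ x = y + stp i := by
  constructor
  · intro h
    have h' : ∑ i, |x i - y i| = 1 := h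
    -- some coordinate differs
    have h1 : ∃ i, x i ≠ y i := by
      by_contra hc
      push Not at hc
      simp [hc] at h'
    obtain ⟨i, hi⟩ := h1
    have hpos : 1 ≤ |x i - y i| := Int.one_le_abs (sub_ne_zero.mpr hi)
    have hsplit : |x i - y i| + ∑ j ∈ Finset.univ.erase i, |x j - y j| = ∑ j, |x j - y j| :=
      Finset.add_sum_erase Finset.univ (fun j => |x j - y j|) (Finset.mem_univ i)
    rw [h'] at hsplit
    have hnn : 0 ≤ ∑ j ∈ Finset.univ.erase i, |x j - y j| :=
      Finset.sum_nonneg fun j _ => abs_nonneg _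
    have hi1 : |x i - y i| = 1 := by omega
    have h0 : ∑ j ∈ Finset.univ.erase i, |x j - y j| = 0 := by omega
    have hother : ∀ j, j ≠ i → x j = y j := by
      intro j hj
      have := (Finset.sum_eq_zero_iff_of_nonneg (fun j _ => abs_nonneg (x j - y j))).mp h0 j
        (Finset.mem_erase.mpr ⟨hj, Finset.mem_univ j⟩)
      exact sub_eq_zero.mp (abs_eq_zero.mp this)
    refine ⟨i, ?_⟩
    rcases (abs_eq (zero_le_one' ℤ)).mp hi1 with h2 | h2
    · right
      funext j
      by_cases hj : j = i
      · subst hj; simp only [Pi.add_apply, stp_same]; omega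
      · simp only [Pi.add_apply, stp_ne hj, hother j hj, add_zero]
    · left
      funext j
      by_cases hj : j = i
      · subst hj; simp only [Pi.add_apply, stp_same]; omega
      · simp only [Pi.add_apply, stp_ne hj, hother j hj, add_zero]
  · have key : ∀ (x : V d) (i : Fin d), ∑ j, |x j - (x + stp i) j| = 1 := by
      intro x i
      rw [Finset.sum_eq_single i]
      · simp [stp_same]
      · intro j _ hj; simp [stp_ne hj]
      · intro h; exact absurd (Finset.mem_univ i) h
    rintro ⟨i, rfl | rfl⟩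
    · exact key x i
    · exact (lattice d).symm.symm _ _ (key y i)

lemma openGraph_eq (ω : Config d) : openGraph ω = gr (opn (XX d) ω) := by
  ext x y
  constructor
  · rintro ⟨h1, h2⟩
    obtain ⟨i, rfl | rfl⟩ := lattice_adj.mp h1
    · exact ⟨i, Or.inl ⟨rfl, h2⟩⟩
    · exact ⟨i, Or.inr ⟨rfl, by rw [Sym2.eq_swap] at h2; exact h2⟩⟩
  · rintro ⟨i, ⟨rfl, h⟩ | ⟨rfl, h⟩⟩
    · exact ⟨lattice_adj.mpr ⟨i, Or.inl rfl⟩, h⟩
    · exact ⟨lattice_adj.mpr ⟨i, Or.inr rfl⟩, by rw [Sym2.eq_swap]; exact h⟩

lemma infinite_iff (ω : Config d) (x : V d) :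
    (cluster ω x).Infinite ↔ x ∈ InfV (opn (XX d) ω) := by
  unfold cluster InfV
  rw [openGraph_eq]; rfl

lemma coin_prob {p : ℝ} (h0 : 0 ≤ p) (h1 : p ≤ 1) : IsProbabilityMeasure (coin p) := by
  refine ⟨?_⟩
  unfold coin
  simp only [Measure.coe_add, Measure.coe_smul, Pi.add_apply, Pi.smul_apply, measure_univ,
    smul_eq_mul, mul_one]
  rw [← ENNReal.ofReal_add h0 (by linarith)]
  simp

lemma coin_true {p : ℝ} (h0 : 0 ≤ p) : (coin p).real {true} = p := by
  unfold coin
  rw [measureReal_def]
  simp [h0]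

lemma isPerc {p : ℝ} (h0 : 0 ≤ p) (h1 : p ≤ 1) : IsPerc (Perc d p) (XX d) p := by
  have : IsProbabilityMeasure (coin p) := coin_prob h0 h1
  have hP : IsProbabilityMeasure (Perc d p) := by unfold Perc; infer_instance
  refine ⟨hP, fun e => measurable_pi_apply _, ?_, fun e => ?_⟩
  · have h := iIndepFun_infinitePi (P := fun _ : Sym2 (V d) => coin p) (X := fun _ b => b)
      (fun _ => measurable_id)
    exact iIndepFun.precomp (g := fun e : E d => s(e.1, e.1 + stp e.2)) edge_inj h
  · have h := Measure.infinitePi_map_eval (fun _ : Sym2 (V d) => coin p) s(e.1, e.1 + stp e.2)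
    have h2 : (Perc d p).real {ω | XX d e ω = true} = (coin p).real {true} := by
      rw [← h, map_measureReal_apply (measurable_pi_apply _) (measurableSet_singleton _)]
      rfl
    rw [h2, coin_true h0]

/-- sum over the open neighbours -/
lemma harmonicAt_iff (ω : Config d) (u : V d → ℝ) (x : V d) :
    HarmonicAt ω u x ↔ HarmAt (opn (XX d) ω) u x := by
  unfold HarmonicAt HarmAt
  rw [openGraph_eq]
  set O := opn (XX d) ω
  have hset : {y | (gr O).Adj x y} =
      (((Finset.univ.filter fun i : Fin d => (x, i) ∈ O).image fun i => x + stp i) ∪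
       ((Finset.univ.filter fun i : Fin d => (x - stp i, i) ∈ O).image fun i => x - stp i) :
        Finset (V d)) := by
    ext y
    simp only [Set.mem_ofPred_eq, Finset.coe_union, Finset.coe_image, Finset.coe_filter,
      Finset.mem_univ, true_and, Set.mem_union, Set.mem_image]
    constructor
    · rintro ⟨i, ⟨rfl, h⟩ | ⟨h1, h⟩⟩
      · exact Or.inl ⟨i, h, rfl⟩
      · have hy : y = x - stp i := by rw [h1]; simp
        subst hy
        exact Or.inr ⟨i, h, rfl⟩
    · rintro (⟨i, h, rfl⟩ | ⟨i, h, rfl⟩)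
      · exact gr_adj_step h
      · exact gr_adj_back h
  rw [hset, finsum_mem_coe_finset, Finset.sum_union, Finset.sum_image, Finset.sum_image,
    Finset.sum_add_distrib, Finset.sum_filter, Finset.sum_filter]
  · intro i _ j _ hij
    have h1 : (stp i : V d) = stp j := by simpa using hij
    by_contra hne
    have := congrFun h1 i
    rw [stp_same, stp_ne hne] at this
    exact one_ne_zero this
  · intro i _ j _ hij
    have h1 : (stp i : V d) = stp j := by simpa using hij
    by_contra hne
    have := congrFun h1 i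
    rw [stp_same, stp_ne hne] at this
    exact one_ne_zero this
  · rw [Finset.disjoint_left]
    rintro y h1 h2
    rw [Finset.mem_image] at h1 h2
    obtain ⟨i, _, rfl⟩ := h1
    obtain ⟨j, _, h2⟩ := h2
    have h3 : (stp i : V d) + stp j = 0 := by
      have : x - stp j = x + stp i := h2
      have := congrArg (fun t => t + stp j - x) this
      simp only [sub_add_cancel, sub_self] at this
      rw [this]; abel
    have h4 := congrFun h3 i
    simp only [Pi.add_apply, Pi.zero_apply, stp_same, stp_apply] at h4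
    split_ifs at h4 <;> omega

lemma ball_eq (N : ℕ) : ball d N = (box d N : Set (V d)) := by
  ext x
  rw [Finset.mem_coe, mem_box]
  exact ⟨nm_le_of_abs, fun h i => (abs_le_nm x i).trans (by exact_mod_cast h)⟩

lemma ball_card (N : ℕ) : ((ball d N).ncard : ℝ) = (2 * N + 1) ^ d := by
  rw [ball_eq, Set.ncard_coe_finset, card_box]; push_cast; ring

/-- the central edge of a pattern lies on a cycle -/
lemma pat_cycle (hd : 2 ≤ d) {O : Set (E d)} {i : Fin d} {v : V d} (h : Pat O i v) :
    ((gr O).deleteEdges {s(v, v + stp i)}).Reachable v (v + stp i) := by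
  obtain ⟨j, hj⟩ : ∃ j : Fin d, j ≠ i := by
    have : Nontrivial (Fin d) := Fin.nontrivial_iff_two_le.mpr hd
    exact exists_ne i
  have e1 : (v, j) ∈ O := (h (v, j) (by simp)).mpr (Or.inr (Or.inr ⟨j, hj, Or.inl rfl⟩))
  have e2 : (v + stp j, i) ∈ O := (h (v + stp j, i) (by simp)).mpr
    (Or.inr (Or.inr ⟨j, hj, Or.inr (Or.inr (Or.inr (Or.inr (Or.inl rfl))))⟩))
  have e3 : (v + stp i, j) ∈ O := (h (v + stp i, j) (by simp)).mpr
    (Or.inr (Or.inr ⟨j, hj, Or.inr (Or.inr (Or.inl rfl))⟩))
  have hvi : (stp i : V d) j = 0 := stp_ne hj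
  have hvj : (stp j : V d) j = 1 := stp_same j
  have a1 : ((gr O).deleteEdges {s(v, v + stp i)}).Adj v (v + stp j) := by
    rw [SimpleGraph.deleteEdges_adj]
    refine ⟨gr_adj_step e1, fun hc => ?_⟩
    rw [Set.mem_singleton_iff, Sym2.eq_iff] at hc
    rcases hc with ⟨-, h2⟩ | ⟨h2, -⟩
    · have := congrFun (add_left_cancel h2) j; rw [hvi, hvj] at this; exact one_ne_zero this
    · have := congrFun h2 i
      simp [stp_same] at this
  have a2 : ((gr O).deleteEdges {s(v, v + stp i)}).Adj (v + stp j) (v + stp j + stp i) := by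
    rw [SimpleGraph.deleteEdges_adj]
    refine ⟨gr_adj_step e2, fun hc => ?_⟩
    rw [Set.mem_singleton_iff, Sym2.eq_iff] at hc
    rcases hc with ⟨h2, -⟩ | ⟨h2, -⟩
    · have := congrFun h2 j
      simp [stp_same] at this
    · have := congrFun (add_left_cancel h2) j; rw [hvi, hvj] at this; exact one_ne_zero this
  have a3 : ((gr O).deleteEdges {s(v, v + stp i)}).Adj (v + stp j + stp i) (v + stp i) := by
    rw [SimpleGraph.deleteEdges_adj]
    have h1 : v + stp j + stp i = v + stp i + stp j := by abel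
    rw [h1]
    refine ⟨(gr_adj_step e3).symm, fun hc => ?_⟩
    rw [Set.mem_singleton_iff, Sym2.eq_iff] at hc
    rcases hc with ⟨h2, -⟩ | ⟨h2, -⟩
    · have := congrFun h2 j
      simp only [Pi.add_apply, hvi, hvj] at this; omega
    · have := congrFun h2 j
      simp only [Pi.add_apply, hvi, hvj] at this; omega
  exact a1.reachable.trans (a2.reachable.trans a3.reachable)

/-- from many patterns to positive density of zero edges -/
lemma density (hd : 2 ≤ d) (hpatz : S_PATZ) (ω : Config d) (i : Fin d) (c : ℝ) (hc : 0 < c)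
    (hN : ∀ᶠ N : ℕ in atTop, c * (2 * N + 1) ^ d ≤
      (((box d N).filter fun v => Pat (opn (XX d) ω) i v ∧ v ∈ InfV (opn (XX d) ω)).card : ℝ))
    (u : V d → ℝ) (F : Set (V d)) (hF : F.Finite)
    (hu : ∀ x ∈ InfV (opn (XX d) ω), x ∉ F → HarmonicAt ω u x) :
    PositiveDensity (zeroEdges ω (InfV (opn (XX d) ω)) u ∩ cycleEdges ω) := by
  set O := opn (XX d) ω with hO
  -- exceptional base points
  have hB : {v : V d | ∃ x ∈ TT i v, x ∈ F}.Finite := by
    refine (hF.biUnion fun x _ => finite_ball x 3).subset ?_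
    rintro v ⟨x, hx, hxF⟩
    simp only [Set.mem_iUnion]
    refine ⟨x, hxF, ?_⟩
    show nm (v - x) ≤ 3
    rw [nm_sub_comm]
    rcases hx with rfl | rfl | ⟨j, -, rfl | rfl⟩
    · simp
    · simp
    · have h1 : v + stp i + stp j - v = stp i + stp j := by abel
      rw [h1]; have := nm_add_le (stp i : V d) (stp j); simp at this; omega
    · have h1 : v + stp i - stp j - v = stp i - stp j := by abel
      rw [h1]; have := nm_sub_le (stp i : V d) (stp j); simp at this; omega
  set K := hB.toFinset.card with hK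
  -- large N
  have hlarge : ∀ᶠ N : ℕ in atTop, (K : ℝ) ≤ c / 2 * (2 * N + 1) ^ d := by
    have h1 : Tendsto (fun N : ℕ => c / 2 * (2 * (N : ℝ) + 1)) atTop atTop := by
      refine Tendsto.const_mul_atTop (by positivity) ?_
      exact tendsto_atTop_add_const_right _ _
        (Tendsto.const_mul_atTop (by norm_num) tendsto_natCast_atTop_atTop)
    filter_upwards [h1.eventually_ge_atTop (K : ℝ)] with N hN
    refine hN.trans ?_
    have h2 : (1 : ℝ) ≤ 2 * (N : ℝ) + 1 := by
      have : (0 : ℝ) ≤ N := Nat.cast_nonneg N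
      linarith
    have h3 : (2 * (N : ℝ) + 1) ^ 1 ≤ (2 * (N : ℝ) + 1) ^ d := pow_le_pow_right₀ h2 (by omega)
    rw [pow_one] at h3
    have : 0 < c / 2 := by positivity
    nlinarith
  obtain ⟨N1, hN1⟩ := eventually_atTop.mp (hN.and hlarge)
  refine ⟨c / 2 * (1 / 3) ^ d, by positivity, ?_⟩
  filter_upwards [eventually_ge_atTop (N1 + 1)] with N hNN
  obtain ⟨M, rfl⟩ : ∃ M, N = M + 1 := ⟨N - 1, by omega⟩
  obtain ⟨h1, h2⟩ := hN1 M (by omega)
  set S := (box d M).filter fun v => Pat O i v ∧ v ∈ InfV O with hS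
  set S' := S.filter fun v => ¬ ∃ x ∈ TT i v, x ∈ F with hS'
  have hcard : (S.card : ℝ) ≤ S'.card + K := by
    have := Finset.card_filter_add_card_filter_not (s := S) (fun v => ∃ x ∈ TT i v, x ∈ F)
    have h3 : (S.filter fun v => ∃ x ∈ TT i v, x ∈ F).card ≤ K := by
      refine Finset.card_le_card fun v hv => ?_
      rw [Set.Finite.mem_toFinset]
      exact (Finset.mem_filter.mp hv).2
    have h4 : S.card ≤ S'.card + K := by rw [hS']; omega
    exact_mod_cast h4
  -- the edges
  have hfin : {e ∈ zeroEdges ω (InfV O) u ∩ cycleEdges ω |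
      ∀ x ∈ e, x ∈ ball d (M + 1)}.Finite := by
    have h5 : (((box d (M + 1)) ×ˢ (box d (M + 1))).image
      (fun q : V d × V d => s(q.1, q.2)) : Set (Sym2 (V d))).Finite := Finset.finite_toSet _
    refine h5.subset ?_
    rintro e ⟨⟨⟨x, y, rfl, -⟩, -⟩, he⟩
    rw [ball_eq] at he
    have hx := he x (Sym2.mem_mk_left x y)
    have hy := he y (Sym2.mem_mk_right x y)
    rw [Finset.mem_coe] at hx hy
    rw [Finset.mem_coe, Finset.mem_image]
    exact ⟨(x, y), Finset.mem_product.mpr ⟨hx, hy⟩, rfl⟩
  have hsub : ((S'.image fun v => s(v, v + stp i) : Finset (Sym2 (V d))) : Set (Sym2 (V d))) ⊆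
      {e ∈ zeroEdges ω (InfV O) u ∩ cycleEdges ω | ∀ x ∈ e, x ∈ ball d (M + 1)} := by
    intro e he
    rw [Finset.mem_coe, Finset.mem_image] at he
    obtain ⟨v, hv, rfl⟩ := he
    rw [hS', Finset.mem_filter, hS, Finset.mem_filter] at hv
    obtain ⟨⟨hvb, hpat, hvI⟩, hvF⟩ := hv
    have hopen : (v, i) ∈ O := (hpat (v, i) (by simp)).mpr (Or.inr (Or.inl rfl))
    have hadj : (openGraph ω).Adj v (v + stp i) := by
      rw [openGraph_eq]; exact gr_adj_step hopen
    have hTI : ∀ x ∈ TT i v, x ∈ InfV O := by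
      have hvi : v + stp i ∈ InfV O := (infV_step hopen).mp hvI
      intro x hx
      rcases hx with rfl | rfl | ⟨j, hj, rfl | rfl⟩
      · exact hvI
      · exact hvi
      · refine (infV_step ?_).mp hvi
        exact (hpat (v + stp i, j) (by simp)).mpr
          (Or.inr (Or.inr ⟨j, hj, Or.inr (Or.inr (Or.inl rfl))⟩))
      · have h6 : (v + stp i - stp j, j) ∈ O := by
          refine (hpat (v + stp i - stp j, j) ?_).mpr
            (Or.inr (Or.inr ⟨j, hj, Or.inr (Or.inr (Or.inr (Or.inl rfl)))⟩))
          have h7 : v + stp i - stp j - v = stp i - stp j := by abel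
          show nm (v + stp i - stp j - v) ≤ 4
          rw [h7]; have := nm_sub_le (stp i : V d) (stp j); simp at this; omega
        have := infV_step h6
        rw [sub_add_cancel] at this
        exact this.mpr hvi
    have hz : u (v + stp i) = u v := by
      refine hpatz d hd O i v u hpat fun x hx => ?_
      rw [← harmonicAt_iff]
      refine hu x (hTI x hx) fun hxF => hvF ⟨x, hx, hxF⟩
    refine ⟨⟨⟨v, v + stp i, rfl, hvI, (infV_step hopen).mp hvI, hadj, sub_eq_zero.mpr hz⟩,
      ⟨v, v + stp i, rfl, hadj, ?_⟩⟩, ?_⟩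
    · rw [openGraph_eq]; exact pat_cycle hd hpat
    · intro x hx
      rw [Sym2.mem_iff] at hx
      rw [ball_eq, Finset.mem_coe, mem_box]
      rw [mem_box] at hvb
      rcases hx with rfl | rfl
      · omega
      · have := nm_add_stp_le v i; omega
  have hinj : (S'.image fun v => s(v, v + stp i)).card = S'.card := by
    refine Finset.card_image_of_injective _ fun v w hvw => ?_
    exact (stp_pair hvw).1
  have h8 : S'.card ≤ {e ∈ zeroEdges ω (InfV O) u ∩ cycleEdges ω |
      ∀ x ∈ e, x ∈ ball d (M + 1)}.ncard := by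
    rw [← hinj, ← Set.ncard_coe_finset]
    exact Set.ncard_le_ncard hsub hfin
  have h9 : (S'.card : ℝ) ≤ ({e ∈ zeroEdges ω (InfV O) u ∩ cycleEdges ω |
      ∀ x ∈ e, x ∈ ball d (M + 1)}.ncard : ℝ) := by exact_mod_cast h8
  refine le_trans ?_ h9
  rw [ball_card]
  have h10 : c / 2 * (2 * (M : ℝ) + 1) ^ d ≤ S'.card := by
    have : c * (2 * (M : ℝ) + 1) ^ d ≤ S'.card + K := h1.trans hcard
    linarith
  refine le_trans ?_ h10
  rw [mul_assoc, ← mul_pow]
  have h11 : 1 / 3 * (2 * ((M + 1 : ℕ) : ℝ) + 1) ≤ 2 * (M : ℝ) + 1 := by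
    have : (0 : ℝ) ≤ M := Nat.cast_nonneg M
    push_cast; linarith
  have h12 : (0 : ℝ) ≤ 1 / 3 * (2 * ((M + 1 : ℕ) : ℝ) + 1) := by positivity
  have := pow_le_pow_left₀ h12 h11 d
  have hc2 : (0 : ℝ) < c / 2 := by positivity
  exact mul_le_mul_of_nonneg_left this hc2.le

/-- Almost surely the property in question fails on the infinite cluster, for every `d ≥ 3` and every
`p < 1` with `p > 1 - 1 / (4 d 3^d)`. -/
theorem result (d : ℕ) (hd : 3 ≤ d) (p : ℝ) (hp : 1 - 1 / (4 * d * 3 ^ d) < p) (hp1 : p < 1) :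
    criticalProb d < p ∧ ∀ᵐ ω ∂(Perc d p), ∃ C : Set (Fin d → ℤ), InfiniteCluster ω C ∧
      (∀ C' : Set (Fin d → ℤ), InfiniteCluster ω C' → C' = C) ∧
      ¬ Continuation ω C ∧
      (∃ o ∈ C, ∃ u : (Fin d → ℤ) → ℝ, (∀ x ∈ C, x ≠ o → HarmonicAt ω u x) ∧
        (∀ x ∈ C, 0 < u x) ∧ TendsToZero C u) ∧
      (∀ (u : (Fin d → ℤ) → ℝ) (F : Set (Fin d → ℤ)), F.Finite →
        (∀ x ∈ C, x ∉ F → HarmonicAt ω u x) →
        PositiveDensity (zeroEdges ω C u ∩ cycleEdges ω)) := by
  have hbox : S_BOX := Pool.Agent.W844.VG.bx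
  have hnear : S_NEAR := Pool.Agent.W932.VG.near cut ann simple
  have hjoin : S_JOIN := Pool.Agent.W932.VG.join cut ann hbox simple
  have hloc : S_LOC := Pool.Agent.W932.VG.loc hnear hjoin hbox
  have haeg : S_AEGOOD := Pool.Agent.W932.VG.aegood
  have htheta : S_THETA := Pool.Agent.W932.VG.theta hnear
  have hharm : S_HARM := harm Pool.Agent.W932.VG.mini Pool.Agent.W932.VG.level Flow.flow
    Pool.Agent.W932.VG.wen hbox
  have hlln : S_LLN := Pool.Agent.W196.VG.lln cheb Pool.Agent.W932.VG.pei haeg hnear (patc ann)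
  have hpatz : S_PATZ := patz
  have hd0 : (0 : ℝ) < 4 * d * 3 ^ d := by
    have : (0 : ℝ) < d := by exact_mod_cast (by omega : 0 < d)
    positivity
  have hsmall : ∀ q : ℝ, 1 - 1 / (4 * d * 3 ^ d) < q → (d : ℝ) * 3 ^ d * (1 - q) ≤ 1 / 4 := by
    intro q hq
    have h1 : 1 - q ≤ 1 / (4 * d * 3 ^ d) := by linarith
    have h2 : (4 * d * 3 ^ d) * (1 - q) ≤ 1 := by
      rw [le_div_iff₀ hd0] at h1; linarith
    linarith
  have hp00 : (0 : ℝ) ≤ 1 - 1 / (4 * d * 3 ^ d) := by
    have h1 : (1 : ℝ) ≤ 4 * d * 3 ^ d := by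
      have h2 : (3 : ℝ) ≤ d := by exact_mod_cast hd
      have h3 : (1 : ℝ) ≤ 3 ^ d := one_le_pow₀ (by norm_num)
      nlinarith
    have : 1 / (4 * (d : ℝ) * 3 ^ d) ≤ 1 := by rw [div_le_one hd0]; exact h1
    linarith
  have hp0 : 0 ≤ p := hp00.trans hp.le
  refine ⟨?_, ?_⟩
  · -- critical probability
    have h1 : criticalProb d ≤ 1 - 1 / (4 * d * 3 ^ d) := by
      refine Real.sSup_le ?_ hp00
      rintro q ⟨hq0, hq1, hq⟩
      by_contra hlt
      push Not at hlt
      have := htheta d (Config d) (Perc d q) (XX d) q (by omega) (isPerc hq0 hq1) (hsmall q hlt)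
      have h2 : {ω : Config d | (cluster ω 0).Infinite} =
          {ω | (0 : V d) ∈ InfV (opn (XX d) ω)} := by
        ext ω; exact infinite_iff ω 0
      rw [← h2, hq] at this
      exact lt_irrefl _ this
    linarith
  · have hP := isPerc (d := d) hp0 hp1.le
    have hK := hsmall p hp
    have i : Fin d := ⟨0, by omega⟩
    have hg := haeg d (Config d) (Perc d p) (XX d) p hP (by linarith)
    obtain ⟨c, hc, hl⟩ := hlln d (Config d) (Perc d p) (XX d) p i hd hP hp1 hK
    filter_upwards [hg, hl] with ω hgo hlo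
    set O := opn (XX d) ω with hO
    have hL : Loc O := hloc d (by omega) O hgo
    have hconn : ∀ x y, x ∈ InfV O → y ∈ InfV O → (gr O).Reachable x y :=
      fun x y hx hy => hL.conn hbox hx hy
    obtain ⟨o, ho⟩ : ∃ o, o ∈ InfV O := by
      obtain ⟨a, b, -, h, -⟩ := hL
      obtain ⟨x, hx, -⟩ := h 0
      exact ⟨x, hx⟩
    have hcl : ∀ x ∈ InfV O, cluster ω x = InfV O := by
      intro x hx
      ext y
      show (openGraph ω).Reachable x y ↔ _
      rw [openGraph_eq]
      exact ⟨fun h => infV_of_reachable h hx, fun h => hconn x y hx h⟩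
    have hinf : (InfV O).Infinite := by
      rw [← hcl o ho]; exact (infinite_iff ω o).mpr ho
    have hdens : ∀ (u : (Fin d → ℤ) → ℝ) (F : Set (Fin d → ℤ)), F.Finite →
        (∀ x ∈ InfV O, x ∉ F → HarmonicAt ω u x) →
        PositiveDensity (zeroEdges ω (InfV O) u ∩ cycleEdges ω) :=
      fun u F hF hu => density (by omega) hpatz ω i c hc hlo u F hF hu
    obtain ⟨u, hu1, hu2, hu3, hu4⟩ := hharm d hd O hL o ho
    have hT : TendsToZero (InfV O) u := by
      intro ε hε
      obtain ⟨R, hR⟩ := hu4 (ε / 2) (by positivity)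
      refine (finite_ball (0 : V d) R).subset ?_
      rintro x ⟨hx, hx2⟩
      show nm (x - 0) ≤ R
      rw [sub_zero]
      by_contra hlt
      push Not at hlt
      have h1 := hR x hlt.le
      rw [abs_of_pos (hu2 x hx)] at hx2
      linarith
    have hH : ∀ x ∈ InfV O, x ≠ o → HarmonicAt ω u x :=
      fun x _ hxo => (harmonicAt_iff ω u x).mpr (hu3 x hxo)
    refine ⟨InfV O, ⟨hinf, o, (hcl o ho).symm⟩, ?_, ?_, ⟨o, ho, u, hH, hu2, hT⟩, hdens⟩
    · rintro C' ⟨hC', x, rfl⟩
      exact hcl x ((infinite_iff ω x).mp hC')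
    · intro hcon
      have h1 : PositiveDensity (zeroEdges ω (InfV O) u) := by
        obtain ⟨c', hc', h⟩ := hdens u {o} (Set.finite_singleton o)
          (fun x hx hxo => hH x hx (by simpa using hxo))
        refine ⟨c', hc', ?_⟩
        filter_upwards [h] with N hN
        refine hN.trans ?_
        have hfin : {e ∈ zeroEdges ω (InfV O) u | ∀ x ∈ e, x ∈ ball d N}.Finite := by
          have h5 : (((box d N) ×ˢ (box d N)).image
            (fun q : V d × V d => s(q.1, q.2)) : Set (Sym2 (V d))).Finite :=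
            Finset.finite_toSet _
          refine h5.subset ?_
          rintro e ⟨⟨x, y, rfl, -⟩, he⟩
          rw [ball_eq] at he
          have hx := he x (Sym2.mem_mk_left x y)
          have hy := he y (Sym2.mem_mk_right x y)
          rw [Finset.mem_coe] at hx hy
          rw [Finset.mem_coe, Finset.mem_image]
          exact ⟨(x, y), Finset.mem_product.mpr ⟨hx, hy⟩, rfl⟩
        have h6 : {e ∈ zeroEdges ω (InfV O) u ∩ cycleEdges ω | ∀ x ∈ e, x ∈ ball d N}.ncard ≤
            {e ∈ zeroEdges ω (InfV O) u | ∀ x ∈ e, x ∈ ball d N}.ncard := by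
          refine Set.ncard_le_ncard ?_ hfin
          rintro e ⟨⟨he1, -⟩, he2⟩
          exact ⟨he1, he2⟩
        exact_mod_cast h6
      have h2 := hcon u {o} (Set.finite_singleton o)
        (fun x hx hxo => hH x hx (by simpa using hxo)) hT h1
      refine hinf (h2.subset fun x hx => ⟨hx, (hu2 x hx).ne'⟩)

end Pool.Agent.Results.MP_b4265e_pr.ZeroGradients
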